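import Mathlib

namespace Pool.Agent.X72.Bishop

open Finset

lemma card_le_Icc (X : Finset ℤ) (L H : ℤ) (hX : ∀ x ∈ X, L ≤ x ∧ x ≤ H) (h : L ≤ H + 1) :
    (X.card : ℤ) ≤ H - L + 1 := by
  have h1 : X ⊆ Finset.Icc L H := by
    intro x hx
    rw [Finset.mem_Icc]
    exact hX x hx
  have h2 := Finset.card_le_card h1
  rw [Int.card_Icc] at h2
  omega

lemma pair_bound (X Y : Finset ℤ) (L L' H H' : ℤ)
    (hX : ∀ x ∈ X, L ≤ x ∧ x ≤ H') (hY : ∀ y ∈ Y, L' ≤ y ∧ y ≤ H)
    (hXY : ∀ x ∈ X, ∀ y ∈ Y, x ≤ y) (h1 : L ≤ L' + 1) (h2 : H' ≤ H + 1) (h3 : L ≤ H + 1) :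
    (X.card : ℤ) + Y.card ≤ H - L + 2 := by
  rcases X.eq_empty_or_nonempty with rfl | hXn
  · have := card_le_Icc Y (L - 1) H (fun y hy => ⟨by have := (hY y hy).1; omega, (hY y hy).2⟩)
      (by omega)
    simp only [Finset.card_empty, Nat.cast_zero, zero_add]
    omega
  · rcases Y.eq_empty_or_nonempty with rfl | hYn
    · have := card_le_Icc X L (H + 1) (fun y hy => ⟨(hX y hy).1, by have := (hX y hy).2; omega⟩)
        (by omega)
      simp only [Finset.card_empty, Nat.cast_zero, add_zero]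
      omega
    · set c := X.max' hXn with hc
      have hcX : c ∈ X := Finset.max'_mem _ _
      obtain ⟨y0, hy0⟩ := hYn
      have hcH : c ≤ H := le_trans (hXY c hcX y0 hy0) (hY y0 hy0).2
      have e1 := card_le_Icc X L c (fun x hx => ⟨(hX x hx).1, Finset.le_max' _ _ hx⟩)
        (by have := (hX c hcX).1; omega)
      have e2 := card_le_Icc Y c H (fun y hy => ⟨hXY c hcX y hy, (hY y hy).2⟩) (by omega)
      omega

/-- `T` consists of squares of parity class `π` of the `k × n` board, in index form: a square with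
sum coordinate `2 p + π` and difference coordinate `2 q + π` is `(p, q)`. -/
def OnBoard (k n π : ℤ) (p q : ℤ) : Prop :=
  1 ≤ p - q ∧ p - q ≤ k ∧ 1 ≤ p + q + π ∧ p + q + π ≤ n

/-- every square of the class is on a used sum or a used difference. -/
def Dom (k n π : ℤ) (T : Finset (ℤ × ℤ)) : Prop :=
  ∀ p q, OnBoard k n π p q → p ∈ T.image Prod.fst ∨ q ∈ T.image Prod.snd

/-- unused sums in the index interval `[a,b]`. -/
noncomputable def U (T : Finset (ℤ × ℤ)) (a b : ℤ) : Finset ℤ :=
  (Finset.Icc a b).filter (fun p => p ∉ T.image Prod.fst)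

/-- unused differences in the index interval `[a,b]`. -/
noncomputable def W (T : Finset (ℤ × ℤ)) (a b : ℤ) : Finset ℤ :=
  (Finset.Icc a b).filter (fun q => q ∉ T.image Prod.snd)

lemma mem_U {T : Finset (ℤ × ℤ)} {a b p : ℤ} :
    p ∈ U T a b ↔ (a ≤ p ∧ p ≤ b) ∧ p ∉ T.image Prod.fst := by
  unfold U
  rw [Finset.mem_filter, Finset.mem_Icc]

lemma mem_W {T : Finset (ℤ × ℤ)} {a b p : ℤ} :
    p ∈ W T a b ↔ (a ≤ p ∧ p ≤ b) ∧ p ∉ T.image Prod.snd := by
  unfold W
  rw [Finset.mem_filter, Finset.mem_Icc]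

lemma card_U (T : Finset (ℤ × ℤ)) (a b : ℤ) : b - a + 1 ≤ T.card + (U T a b).card := by
  have h1 : Finset.Icc a b ⊆ U T a b ∪ T.image Prod.fst := by
    intro x hx
    rw [Finset.mem_union, mem_U]
    by_cases h : x ∈ T.image Prod.fst
    · exact Or.inr h
    · rw [Finset.mem_Icc] at hx
      exact Or.inl ⟨hx, h⟩
  have h2 := (Finset.card_le_card h1).trans (Finset.card_union_le _ _)
  have h3 : (T.image Prod.fst).card ≤ T.card := Finset.card_image_le
  rw [Int.card_Icc] at h2
  omega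

lemma card_W (T : Finset (ℤ × ℤ)) (a b : ℤ) : b - a + 1 ≤ T.card + (W T a b).card := by
  have h1 : Finset.Icc a b ⊆ W T a b ∪ T.image Prod.snd := by
    intro x hx
    rw [Finset.mem_union, mem_W]
    by_cases h : x ∈ T.image Prod.snd
    · exact Or.inr h
    · rw [Finset.mem_Icc] at hx
      exact Or.inl ⟨hx, h⟩
  have h2 := (Finset.card_le_card h1).trans (Finset.card_union_le _ _)
  have h3 : (T.image Prod.snd).card ≤ T.card := Finset.card_image_le
  rw [Int.card_Icc] at h2
  omega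

lemma U_split (T : Finset (ℤ × ℤ)) (a b c : ℤ) :
    (U T a c).card ≤ (U T a b).card + (U T (b + 1) c).card := by
  refine (Finset.card_le_card ?_).trans (Finset.card_union_le _ _)
  intro x hx
  rw [Finset.mem_union]
  rw [mem_U] at hx
  rw [mem_U, mem_U]
  by_cases h : x ≤ b
  · exact Or.inl ⟨⟨hx.1.1, h⟩, hx.2⟩
  · exact Or.inr ⟨⟨by omega, hx.1.2⟩, hx.2⟩

lemma W_split (T : Finset (ℤ × ℤ)) (a b c : ℤ) :
    (W T a c).card ≤ (W T a b).card + (W T (b + 1) c).card := by
  refine (Finset.card_le_card ?_).trans (Finset.card_union_le _ _)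
  intro x hx
  rw [Finset.mem_union]
  rw [mem_W] at hx
  rw [mem_W, mem_W]
  by_cases h : x ≤ b
  · exact Or.inl ⟨⟨hx.1.1, h⟩, hx.2⟩
  · exact Or.inr ⟨⟨by omega, hx.1.2⟩, hx.2⟩

/-- no square has both its sum and its difference unused -/
lemma no_square {k n π : ℤ} {T : Finset (ℤ × ℤ)} (hD : Dom k n π T) {a b a' b' p q : ℤ}
    (hp : p ∈ U T a b) (hq : q ∈ W T a' b') : ¬ OnBoard k n π p q := by
  intro h
  rcases hD p q h with h1 | h1
  · exact (mem_U.1 hp).2 h1
  · exact (mem_W.1 hq).2 h1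

/-- the left corner -/
lemma left_bound {k n π : ℤ} (hk : 2 ≤ k) (hn : 2 * k ≤ n + 1) {T : Finset (ℤ × ℤ)}
    (hD : Dom k n π T) :
    ((U T ((3 - π) / 2) ((k - π) / 2)).card : ℤ) + (W T ((2 - k - π) / 2) ((-1 - π) / 2)).card
      ≤ (k - 1 - π) / 2 - (3 - π) / 2 + 2 := by
  set X := U T ((3 - π) / 2) ((k - π) / 2) with hX
  set Y := W T ((2 - k - π) / 2) ((-1 - π) / 2) with hY
  have hYc : (Y.image (fun q => -q - π)).card = Y.card :=
    Finset.card_image_of_injective _ (by intro x y h; simp only at h; omega)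
  rw [← hYc]
  apply pair_bound X (Y.image (fun q => -q - π)) ((3 - π) / 2) ((2 - π) / 2)
    ((k - 1 - π) / 2) ((k - π) / 2)
  · intro x hx
    exact (mem_U.1 hx).1
  · intro y hy
    rw [Finset.mem_image] at hy
    obtain ⟨q, hq, rfl⟩ := hy
    have := (mem_W.1 hq).1
    omega
  · intro x hx y hy
    rw [Finset.mem_image] at hy
    obtain ⟨q, hq, rfl⟩ := hy
    have h1 := no_square hD hx hq
    have h2 := (mem_U.1 hx).1
    have h3 := (mem_W.1 hq).1
    by_contra hlt
    apply h1
    refine ⟨?_, ?_, ?_, ?_⟩ <;> omega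
  · omega
  · omega
  · omega

/-- the right corner -/
lemma right_bound {k n π : ℤ} (hk : 2 ≤ k) (hn : 2 * k ≤ n + 1) {T : Finset (ℤ × ℤ)}
    (hD : Dom k n π T) :
    ((U T ((n + 3 - π) / 2) ((n + k - π) / 2)).card : ℤ)
      + (W T ((n - k + 2 - π) / 2) ((n - 1 - π) / 2)).card
      ≤ (n - 1 - π) / 2 - (n + 3 - k - π) / 2 + 2 := by
  set X := U T ((n + 3 - π) / 2) ((n + k - π) / 2) with hX
  set Y := W T ((n - k + 2 - π) / 2) ((n - 1 - π) / 2) with hY
  have hXc : (X.image (fun p => n + 1 - π - p)).card = X.card :=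
    Finset.card_image_of_injective _ (by intro x y h; simp only at h; omega)
  rw [← hXc]
  apply pair_bound (X.image (fun p => n + 1 - π - p)) Y ((n + 3 - k - π) / 2)
    ((n - k + 2 - π) / 2) ((n - 1 - π) / 2) ((n - π) / 2)
  · intro y hy
    rw [Finset.mem_image] at hy
    obtain ⟨q, hq, rfl⟩ := hy
    have := (mem_U.1 hq).1
    omega
  · intro x hx
    exact (mem_W.1 hx).1
  · intro y hy x hx
    rw [Finset.mem_image] at hy
    obtain ⟨q, hq, rfl⟩ := hy
    have h1 := no_square hD hq hx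
    have h2 := (mem_U.1 hq).1
    have h3 := (mem_W.1 hx).1
    by_contra hlt
    apply h1
    refine ⟨?_, ?_, ?_, ?_⟩ <;> omega
  · omega
  · omega
  · omega

/-- basic double counting -/
lemma basic_bound {k n π : ℤ} (hk : 2 ≤ k) (hn : 2 * k ≤ n + 1) {T : Finset (ℤ × ℤ)}
    (hD : Dom k n π T) :
    n - 1 ≤ 2 * T.card + (U T ((k + 2 - π) / 2) ((n + 1 - π) / 2)).card
      + (W T ((1 - π) / 2) ((n - k - π) / 2)).card := by
  have h1 := left_bound hk hn hD
  have h2 := right_bound hk hn hD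
  have h3 := card_U T ((3 - π) / 2) ((n + k - π) / 2)
  have h4 := card_W T ((2 - k - π) / 2) ((n - 1 - π) / 2)
  have e1 := U_split T ((3 - π) / 2) ((k - π) / 2) ((n + k - π) / 2)
  have e2 := U_split T ((k - π) / 2 + 1) ((n + 1 - π) / 2) ((n + k - π) / 2)
  have e3 := W_split T ((2 - k - π) / 2) ((-1 - π) / 2) ((n - 1 - π) / 2)
  have e4 := W_split T ((-1 - π) / 2 + 1) ((n - k - π) / 2) ((n - 1 - π) / 2)
  have r1 : (k - π) / 2 + 1 = (k + 2 - π) / 2 := by omega
  have r2 : (n + 1 - π) / 2 + 1 = (n + 3 - π) / 2 := by omega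
  have r3 : (-1 - π) / 2 + 1 = (1 - π) / 2 := by omega
  have r4 : (n - k - π) / 2 + 1 = (n - k + 2 - π) / 2 := by omega
  rw [r1] at e1 e2
  rw [r2] at e2
  rw [r3] at e3 e4
  rw [r4] at e4
  have key : n - 1 ≤ ((n + k - π) / 2 - (3 - π) / 2 + 1) + ((n - 1 - π) / 2 - (2 - k - π) / 2 + 1)
      - ((k - 1 - π) / 2 - (3 - π) / 2 + 2) - ((n - 1 - π) / 2 - (n + 3 - k - π) / 2 + 2) := by
    omega
  omega

/-- the case of an unused sum in the middle -/
lemma caseA {k n π : ℤ} (hk : 2 ≤ k) (hn : 2 * k ≤ n + 1) {T : Finset (ℤ × ℤ)}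
    (hT : ∀ x ∈ T, OnBoard k n π x.1 x.2)
    (hD : Dom k n π T) {a : ℤ} (ha : a ∈ U T ((k + 2 - π) / 2) ((n + 1 - π) / 2)) :
    ((U T ((k + 2 - π) / 2) ((n + 1 - π) / 2)).card : ℤ)
      + (W T ((1 - π) / 2) ((n - k - π) / 2)).card + (k - 1) ≤ T.card := by
  set UM := U T ((k + 2 - π) / 2) ((n + 1 - π) / 2) with hUM
  set WM := W T ((1 - π) / 2) ((n - k - π) / 2) with hWM
  set f : ℤ → ℤ := fun p => if p ≤ a then p - k else p - 1 with hf
  set g : ℤ → ℤ := fun q => if q ≤ a - k - 1 then q + 1 else q + k with hg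
  have finj : Function.Injective f := by
    intro x y h
    simp only [hf] at h
    split_ifs at h <;> omega
  have ginj : Function.Injective g := by
    intro x y h
    simp only [hg] at h
    split_ifs at h <;> omega
  set A := UM.image f ∪ Finset.Ioo (a - k) a with hA
  set B := WM.image g with hB
  have haR := (mem_U.1 ha).1
  -- A ⊆ used differences
  have hAu : ∀ c ∈ A, c ∈ T.image Prod.snd := by
    intro c hc
    rw [hA, Finset.mem_union, Finset.mem_image, Finset.mem_Ioo] at hc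
    rcases hc with ⟨p, hp, rfl⟩ | hc
    · have hpR := (mem_U.1 hp).1
      have hpn := (mem_U.1 hp).2
      have hb : OnBoard k n π p (f p) := by
        simp only [hf]
        split_ifs with h
        · refine ⟨?_, ?_, ?_, ?_⟩ <;> omega
        · refine ⟨?_, ?_, ?_, ?_⟩ <;> omega
      rcases hD p (f p) hb with h | h
      · exact absurd h hpn
      · exact h
    · have hb : OnBoard k n π a c := by
        refine ⟨?_, ?_, ?_, ?_⟩ <;> omega
      rcases hD a c hb with h | h
      · exact absurd h (mem_U.1 ha).2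
      · exact h
  have hBu : ∀ c ∈ B, c ∈ T.image Prod.fst := by
    intro c hc
    rw [hB, Finset.mem_image] at hc
    obtain ⟨q, hq, rfl⟩ := hc
    have hqR := (mem_W.1 hq).1
    have hb : OnBoard k n π (g q) q := by
      simp only [hg]
      split_ifs with h
      · refine ⟨?_, ?_, ?_, ?_⟩ <;> omega
      · refine ⟨?_, ?_, ?_, ?_⟩ <;> omega
    rcases hD (g q) q hb with h | h
    · exact h
    · exact absurd h (mem_W.1 hq).2
  have cA : (A.card : ℤ) = UM.card + (k - 1) := by
    rw [hA, Finset.card_union_of_disjoint, Finset.card_image_of_injective _ finj, Int.card_Ioo]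
    · omega
    · rw [Finset.disjoint_left]
      intro c hc hc2
      rw [Finset.mem_image] at hc
      rw [Finset.mem_Ioo] at hc2
      obtain ⟨p, _, rfl⟩ := hc
      simp only [hf] at hc2
      split_ifs at hc2 <;> omega
  have cB : B.card = WM.card := Finset.card_image_of_injective _ ginj
  set TA := T.filter (fun x => x.2 ∈ A) with hTA
  set TB := T.filter (fun x => x.1 ∈ B) with hTB
  have cTA : A.card ≤ TA.card := by
    have : A ⊆ TA.image Prod.snd := by
      intro c hc
      have h := hAu c hc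
      rw [Finset.mem_image] at h ⊢
      obtain ⟨x, hx, hxc⟩ := h
      exact ⟨x, by rw [hTA, Finset.mem_filter]; exact ⟨hx, by rw [hxc]; exact hc⟩, hxc⟩
    exact (Finset.card_le_card this).trans Finset.card_image_le
  have cTB : B.card ≤ TB.card := by
    have : B ⊆ TB.image Prod.fst := by
      intro c hc
      have h := hBu c hc
      rw [Finset.mem_image] at h ⊢
      obtain ⟨x, hx, hxc⟩ := h
      exact ⟨x, by rw [hTB, Finset.mem_filter]; exact ⟨hx, by rw [hxc]; exact hc⟩, hxc⟩
    exact (Finset.card_le_card this).trans Finset.card_image_le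
  have hdis : Disjoint TA TB := by
    rw [Finset.disjoint_left]
    rintro ⟨s, d⟩ h1 h2
    rw [hTA, Finset.mem_filter] at h1
    rw [hTB, Finset.mem_filter] at h2
    have hb := hT _ h1.1
    obtain ⟨b1, b2, b3, b4⟩ := hb
    have h1A := h1.2
    have h2B := h2.2
    simp only at b1 b2 b3 b4 h1A h2B
    rw [hB, Finset.mem_image] at h2B
    obtain ⟨q, hq, hqs⟩ := h2B
    have hqR := (mem_W.1 hq).1
    have hqa : ¬ OnBoard k n π a q := no_square hD ha hq
    have hqa2 : q ≤ a - k - 1 ∨ a ≤ q := by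
      by_contra hcon
      apply hqa
      refine ⟨?_, ?_, ?_, ?_⟩ <;> omega
    rw [hA, Finset.mem_union, Finset.mem_image, Finset.mem_Ioo] at h1A
    rcases h1A with ⟨p, hp, hpd⟩ | h1A
    · have hpR := (mem_U.1 hp).1
      have hpq : ¬ OnBoard k n π p q := no_square hD hp hq
      apply hpq
      simp only [hf] at hpd
      simp only [hg] at hqs
      rcases hqa2 with h | h
      · rw [if_pos h] at hqs
        split_ifs at hpd
        · refine ⟨?_, ?_, ?_, ?_⟩ <;> omega
        · exfalso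
          omega
      · rw [if_neg (by omega)] at hqs
        split_ifs at hpd
        · exfalso
          omega
        · refine ⟨?_, ?_, ?_, ?_⟩ <;> omega
    · simp only [hg] at hqs
      rcases hqa2 with h | h
      · rw [if_pos h] at hqs
        omega
      · rw [if_neg (by omega)] at hqs
        omega
  have hun : (TA ∪ TB).card ≤ T.card :=
    Finset.card_le_card (Finset.union_subset (Finset.filter_subset _ _) (Finset.filter_subset _ _))
  rw [Finset.card_union_of_disjoint hdis] at hun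
  omega

/-- The bound for one parity class. -/
theorem class_boundA {k n π : ℤ} (hk : 2 ≤ k) (hn : 2 * k ≤ n + 1) {T : Finset (ℤ × ℤ)}
    (hT : ∀ x ∈ T, OnBoard k n π x.1 x.2)
    (hD : Dom k n π T) (ha : (U T ((k + 2 - π) / 2) ((n + 1 - π) / 2)).Nonempty) :
    k + n - 2 ≤ 3 * T.card := by
  obtain ⟨a, ha⟩ := ha
  have h1 := caseA hk hn hT hD ha
  have h2 := basic_bound hk hn hD
  omega

/-- The bound for one parity class. -/
theorem class_bound {k n π : ℤ} (hk : 2 ≤ k) (hn : 2 * k ≤ n + 1) {T : Finset (ℤ × ℤ)}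
    (hT : ∀ x ∈ T, OnBoard k n π x.1 x.2)
    (hD : Dom k n π T) :
    k + n - 2 ≤ 3 * T.card := by
  by_cases ha : (U T ((k + 2 - π) / 2) ((n + 1 - π) / 2)).Nonempty
  · exact class_boundA hk hn hT hD ha
  by_cases hb : (W T ((1 - π) / 2) ((n - k - π) / 2)).Nonempty
  · -- reflect the board
    set T' : Finset (ℤ × ℤ) := T.image (fun x => (x.2, x.1 - k - 1)) with hT'
    have hc : T'.card ≤ T.card := Finset.card_image_le
    have hT2 : ∀ x ∈ T', OnBoard k n (π + k + 1) x.1 x.2 := by
      intro x hx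
      rw [hT', Finset.mem_image] at hx
      obtain ⟨y, hy, rfl⟩ := hx
      obtain ⟨b1, b2, b3, b4⟩ := hT y hy
      refine ⟨?_, ?_, ?_, ?_⟩ <;> simp only <;> omega
    have hD2 : Dom k n (π + k + 1) T' := by
      intro p q hpq
      obtain ⟨b1, b2, b3, b4⟩ := hpq
      have hb' : OnBoard k n π (q + k + 1) p := by
        refine ⟨?_, ?_, ?_, ?_⟩ <;> omega
      rcases hD _ _ hb' with h | h
      · right
        rw [Finset.mem_image] at h ⊢
        obtain ⟨y, hy, hyq⟩ := h
        refine ⟨(y.2, y.1 - k - 1), ?_, ?_⟩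
        · rw [hT', Finset.mem_image]
          exact ⟨y, hy, rfl⟩
        · simp only
          omega
      · left
        rw [Finset.mem_image] at h ⊢
        obtain ⟨y, hy, hyq⟩ := h
        refine ⟨(y.2, y.1 - k - 1), ?_, ?_⟩
        · rw [hT', Finset.mem_image]
          exact ⟨y, hy, rfl⟩
        · simp only
          omega
    obtain ⟨q, hq⟩ := hb
    have hq1 := (mem_W.1 hq).1
    have hq2 := (mem_W.1 hq).2
    have ha' : (U T' ((k + 2 - (π + k + 1)) / 2) ((n + 1 - (π + k + 1)) / 2)).Nonempty := by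
      refine ⟨q, mem_U.2 ⟨⟨by omega, by omega⟩, ?_⟩⟩
      intro hcon
      apply hq2
      rw [Finset.mem_image] at hcon ⊢
      obtain ⟨x, hx, hxq⟩ := hcon
      rw [hT', Finset.mem_image] at hx
      obtain ⟨y, hy, rfl⟩ := hx
      exact ⟨y, hy, hxq⟩
    have := class_boundA hk hn hT2 hD2 ha'
    omega
  · rw [Finset.not_nonempty_iff_eq_empty] at ha hb
    have h2 := basic_bound hk hn hD
    rw [ha, hb] at h2
    simp only [Finset.card_empty, Nat.cast_zero, add_zero] at h2
    omega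

end Pool.Agent.X72.Bishop
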